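import Pool.Agent.helper55.RI.Spec

set_option autoImplicit false

namespace Pool.Agent.RI

open Pool.Agent.helper62 Prog Function Pool.Agent.helper81.PL

theorem B1_bkt_pos (e1 m1 e2 m2 : W → W) (x : W) (h : e2 (m2 x) = x) :
    bk e1 m1 e2 m2 (true, x) = (false, m2 x) := by
  unfold bk
  simp [h]

theorem B1_bkt_neg (e1 m1 e2 m2 : W → W) (x : W) (h : ¬ e2 (m2 x) = x) :
    bk e1 m1 e2 m2 (true, x) = (true, x) := by
  unfold bk
  simp [h]

theorem B1_bkf_pos (e1 m1 e2 m2 : W → W) (x : W) (h : e1 (m1 x) = x) :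
    bk e1 m1 e2 m2 (false, x) = (true, m1 x) := by
  unfold bk
  simp [h]

theorem B1_bkf_neg (e1 m1 e2 m2 : W → W) (x : W) (h : ¬ e1 (m1 x) = x) :
    bk e1 m1 e2 m2 (false, x) = (false, x) := by
  unfold bk
  simp [h]

theorem B1_step (e1 m1 e2 m2 : W → W) (h1 : ∀ x, x.length < (e1 x).length)
    (h2 : ∀ x, x.length < (e2 x).length) (s : Bool × W) :
    bk e1 m1 e2 m2 s = s ∨ (bk e1 m1 e2 m2 s).2.length < s.2.length := by
  obtain ⟨b, x⟩ := s
  cases b
  · by_cases h : e1 (m1 x) = x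
    · right
      rw [B1_bkf_pos _ _ _ _ _ h]
      have := h1 (m1 x)
      rw [h] at this
      exact this
    · left
      exact B1_bkf_neg _ _ _ _ _ h
  · by_cases h : e2 (m2 x) = x
    · right
      rw [B1_bkt_pos _ _ _ _ _ h]
      have := h2 (m2 x)
      rw [h] at this
      exact this
    · left
      exact B1_bkt_neg _ _ _ _ _ h

theorem B1_iter (e1 m1 e2 m2 : W → W) (h1 : ∀ x, x.length < (e1 x).length)
    (h2 : ∀ x, x.length < (e2 x).length) (s : Bool × W) (n : ℕ) :
    bk e1 m1 e2 m2 ((bk e1 m1 e2 m2)^[n] s) = (bk e1 m1 e2 m2)^[n] s ∨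
      ((bk e1 m1 e2 m2)^[n] s).2.length + n ≤ s.2.length := by
  induction n with
  | zero => right; simp
  | succ n ih =>
    rw [iterate_succ_apply']
    rcases ih with ih | ih
    · left
      rw [ih, ih]
    · rcases B1_step e1 m1 e2 m2 h1 h2 ((bk e1 m1 e2 m2)^[n] s) with h | h
      · left
        rw [h, h]
      · right
        omega

theorem B1_stable (e1 m1 e2 m2 : W → W) (h1 : ∀ x, x.length < (e1 x).length)
    (h2 : ∀ x, x.length < (e2 x).length) (s : Bool × W) (n : ℕ) :
    (bk e1 m1 e2 m2)^[s.2.length + 1 + n] s = (bk e1 m1 e2 m2)^[s.2.length + 1] s := by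
  induction n with
  | zero => rfl
  | succ n ih =>
    have h := B1_iter e1 m1 e2 m2 h1 h2 s (s.2.length + 1)
    rcases h with h | h
    · rw [← add_assoc, iterate_succ_apply', ih, h]
    · omega

theorem B1_side_bk (e1 m1 e2 m2 : W → W) (h1 : ∀ x, x.length < (e1 x).length)
    (h2 : ∀ x, x.length < (e2 x).length) (s : Bool × W) :
    side e1 m1 e2 m2 (bk e1 m1 e2 m2 s) = side e1 m1 e2 m2 s := by
  unfold side
  rw [← B1_stable e1 m1 e2 m2 h1 h2 s ((bk e1 m1 e2 m2 s).2.length + 1),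
    ← B1_stable e1 m1 e2 m2 h1 h2 (bk e1 m1 e2 m2 s) s.2.length, ← iterate_succ_apply]
  congr 2
  omega

theorem B1_side_fix (e1 m1 e2 m2 : W → W) (s : Bool × W) (h : bk e1 m1 e2 m2 s = s) :
    side e1 m1 e2 m2 s = s.1 := by
  unfold side
  rw [iterate_fixed h]

theorem B1 : B1_stmt := by
  intro A B e1 m1 e2 m2 hm1 hm2 h1 h2 hA hB
  have s1 : ∀ x, side e1 m1 e2 m2 (false, e1 x) = side e1 m1 e2 m2 (true, x) := by
    intro x
    rw [← B1_side_bk e1 m1 e2 m2 h1 h2 (false, e1 x),
      B1_bkf_pos _ _ _ _ _ (by rw [hm1]), hm1]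
  have s2 : ∀ y, side e1 m1 e2 m2 (true, e2 y) = side e1 m1 e2 m2 (false, y) := by
    intro y
    rw [← B1_side_bk e1 m1 e2 m2 h1 h2 (true, e2 y),
      B1_bkt_pos _ _ _ _ _ (by rw [hm2]), hm2]
  have t1 : ∀ x, side e1 m1 e2 m2 (true, x) = false → e2 (m2 x) = x := by
    intro x hx
    by_contra h
    rw [B1_side_fix _ _ _ _ _ (B1_bkt_neg _ _ _ _ _ h)] at hx
    exact Bool.noConfusion hx
  have t2 : ∀ y, side e1 m1 e2 m2 (false, y) = true → e1 (m1 y) = y := by
    intro x hx
    by_contra h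
    rw [B1_side_fix _ _ _ _ _ (B1_bkf_neg _ _ _ _ _ h)] at hx
    exact Bool.noConfusion hx
  refine ⟨?_, ?_, ?_⟩
  · intro x
    unfold bhg bhh
    cases hs : side e1 m1 e2 m2 (true, x) with
    | true =>
      rw [cond_true, s1, hs, cond_true, hm1]
    | false =>
      have h := t1 x hs
      have h3 := s2 (m2 x)
      rw [h, hs] at h3
      rw [cond_false, ← h3, cond_false, h]
  · intro y
    unfold bhg bhh
    cases hs : side e1 m1 e2 m2 (false, y) with
    | true =>
      have h := t2 y hs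
      have h3 := s1 (m1 y)
      rw [h, hs] at h3
      rw [cond_true, ← h3, cond_true, h]
    | false =>
      rw [cond_false, s2, hs, cond_false, hm2]
  · intro x
    unfold bhh
    cases hs : side e1 m1 e2 m2 (true, x) with
    | true =>
      rw [cond_true]
      exact hA x
    | false =>
      rw [cond_false]
      have h := t1 x hs
      have h4 := hB (m2 x)
      rw [h] at h4
      exact h4.symm

end Pool.Agent.RI
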